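import Pool.Agent.H96.CP.Stm9

/-!
# Project CP3 (helper96): the number of further disks that can be added simultaneously (helper52)
-/

set_option autoImplicit false

open Real Set MeasureTheory Metric Filter Topology
open scoped ENNReal Nat ComplexConjugate

namespace Pool.Agent.H96.CP

theorem add_fibre (a L s : ℝ) (N n : ℕ) (hs : 0 < s) (hsa : s < a) {x : Fin N → ℂ}
    (hAdd : Add a L x n) :
    (n ! : ℝ≥0∞) * (ENNReal.ofReal s ^ 2 * NNReal.pi) ^ n ≤
      volume (Prod.mk (x + fun _ => (⟨s, s⟩ : ℂ)) ⁻¹' TT (a - s) (L + 2 * s) N n) := by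
  obtain ⟨y, hy, hyx⟩ := hAdd
  set c : ℂ := ⟨s, s⟩ with hc
  set B : Equiv.Perm (Fin n) → Set (Fin n → ℂ) :=
    fun σ => Set.pi univ (fun j => ball (y (σ j) + c) s) with hB
  have hvol : ∀ σ, volume (B σ) = (ENNReal.ofReal s ^ 2 * NNReal.pi) ^ n := by
    intro σ
    rw [hB]
    simp only
    rw [volume_pi_pi]
    simp only [Complex.volume_ball, Finset.prod_const, Finset.card_univ, Fintype.card_fin]
  have hmeas : ∀ σ, MeasurableSet (B σ) := fun σ => MeasurableSet.univ_pi fun j => measurableSet_ball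
  have hdis : Pairwise (Function.onFun Disjoint B) := by
    intro σ τ hστ
    show Disjoint (B σ) (B τ)
    rw [Set.disjoint_left]
    intro z h1 h2
    apply hστ
    ext j
    congr 1
    by_contra hj
    have h3 := h1 j (mem_univ _)
    have h4 := h2 j (mem_univ _)
    rw [mem_ball, dist_eq_norm] at h3 h4
    have h5 := hy.2 _ _ hj
    have h6 : ‖y (σ j) - y (τ j)‖ ≤ ‖z j - (y (σ j) + c)‖ + ‖z j - (y (τ j) + c)‖ := by
      rw [norm_sub_rev (z j) (y (σ j) + c)]
      calc ‖y (σ j) - y (τ j)‖ = ‖(y (σ j) + c - z j) + (z j - (y (τ j) + c))‖ := by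
            congr 1
            ring
        _ ≤ _ := norm_add_le _ _
    linarith
  have hsub : (⋃ σ, B σ) ⊆ Prod.mk (x + fun _ => c) ⁻¹' TT (a - s) (L + 2 * s) N n := by
    intro z hz
    rw [mem_iUnion] at hz
    obtain ⟨σ, hz⟩ := hz
    have hz' : ∀ j, ‖z j - (y (σ j) + c)‖ < s := by
      intro j
      have := hz j (mem_univ _)
      rwa [mem_ball, dist_eq_norm] at this
    rw [mem_preimage]
    refine ⟨⟨fun j => ?_, fun i j hij => ?_⟩, fun i j => ?_⟩
    · have h1 := hz' j
      have h2 := (Complex.abs_re_le_norm (z j - (y (σ j) + c))).trans_lt h1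
      have h3 := (Complex.abs_im_le_norm (z j - (y (σ j) + c))).trans_lt h1
      rw [abs_lt] at h2 h3
      simp only [Complex.sub_re, Complex.add_re, Complex.sub_im, Complex.add_im] at h2 h3
      have hcr : c.re = s := rfl
      have hci : c.im = s := rfl
      rw [hcr] at h2
      rw [hci] at h3
      obtain ⟨⟨g1, g2⟩, ⟨g3, g4⟩⟩ := hy.1 (σ j)
      refine ⟨⟨?_, ?_⟩, ⟨?_, ?_⟩⟩
      · show 0 ≤ (z j).re
        linarith
      · show (z j).re ≤ L + 2 * s
        linarith
      · show 0 ≤ (z j).im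
        linarith
      · show (z j).im ≤ L + 2 * s
        linarith
    · have h5 := hy.2 (σ i) (σ j) (fun h => hij (σ.injective h))
      have h6 : ‖y (σ i) - y (σ j)‖ ≤ ‖z i - (y (σ i) + c)‖ + ‖z i - z j‖ +
          ‖z j - (y (σ j) + c)‖ := by
        rw [norm_sub_rev (z i) (y (σ i) + c)]
        calc ‖y (σ i) - y (σ j)‖ =
              ‖(y (σ i) + c - z i) + (z i - z j) + (z j - (y (σ j) + c))‖ := by
              congr 1
              ring
          _ ≤ ‖(y (σ i) + c - z i) + (z i - z j)‖ + ‖z j - (y (σ j) + c)‖ := norm_add_le _ _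
          _ ≤ _ := by
              have := norm_add_le (y (σ i) + c - z i) (z i - z j)
              linarith
      have h7 := hz' i
      have h8 := hz' j
      show 2 * (a - s) ≤ ‖z i - z j‖
      linarith
    · have h5 := hyx i (σ j)
      have h6 : ‖y (σ j) - x i‖ ≤ ‖z j - (y (σ j) + c)‖ + ‖z j - (x i + c)‖ := by
        rw [norm_sub_rev (z j) (y (σ j) + c)]
        calc ‖y (σ j) - x i‖ = ‖(y (σ j) + c - z j) + (z j - (x i + c))‖ := by
              congr 1
              ring
          _ ≤ _ := norm_add_le _ _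
      have h7 := hz' j
      show 2 * (a - s) ≤ ‖z j - (x i + c)‖
      linarith
  calc (n ! : ℝ≥0∞) * (ENNReal.ofReal s ^ 2 * NNReal.pi) ^ n = ∑ σ, volume (B σ) := by
        simp only [hvol, Finset.sum_const, Finset.card_univ, Fintype.card_perm, Fintype.card_fin,
          nsmul_eq_mul]
    _ = volume (⋃ σ, B σ) := by rw [measure_iUnion hdis hmeas, tsum_fintype]
    _ ≤ _ := measure_mono hsub

theorem add : S_add := by
  intro a L s N n hs hsa hL
  set K : ℝ≥0∞ := (n ! : ℝ≥0∞) * (ENNReal.ofReal s ^ 2 * NNReal.pi) ^ n with hK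
  set F : (Fin N → ℂ) → ℝ≥0∞ :=
    fun x => volume (Prod.mk x ⁻¹' TT (a - s) (L + 2 * s) N n) with hFd
  have hF : Measurable F := measurable_measure_prodMk_left (TT_meas _ _ N n)
  set A : Set (Fin N → ℂ) := {x | K ≤ F x} ∩ CC (a - s) (L + 2 * s) (Fin N) with hA
  have key : {x : Fin N → ℂ | x ∈ CC a L (Fin N) ∧ Add a L x n} ⊆
      (fun x => x + fun _ => (⟨s, s⟩ : ℂ)) ⁻¹' A := by
    rintro x ⟨hx, hAdd⟩
    refine ⟨add_fibre a L s N n hs hsa hAdd, fun i => ?_, fun i j hij => ?_⟩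
    · obtain ⟨⟨g1, g2⟩, ⟨g3, g4⟩⟩ := hx.1 i
      show ((x i).re + s ∈ Icc 0 (L + 2 * s)) ∧ ((x i).im + s ∈ Icc 0 (L + 2 * s))
      exact ⟨⟨by linarith, by linarith⟩, ⟨by linarith, by linarith⟩⟩
    · have h5 := hx.2 i j hij
      show 2 * (a - s) ≤ ‖(x i + (⟨s, s⟩ : ℂ)) - (x j + (⟨s, s⟩ : ℂ))‖
      rw [add_sub_add_right_eq_sub]
      linarith
  have h1 : volume {x : Fin N → ℂ | x ∈ CC a L (Fin N) ∧ Add a L x n} ≤ volume A := by
    refine (measure_mono key).trans (le_of_eq ?_)
    exact measure_preimage_add_right _ _ _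
  have h2 : K * volume A ≤ volume (CC (a - s) (L + 2 * s) (Fin (N + n))) := by
    have h3 := mul_meas_ge_le_lintegral (μ := volume.restrict (CC (a - s) (L + 2 * s) (Fin N)))
      hF K
    rw [Measure.restrict_apply (measurableSet_le measurable_const hF)] at h3
    rw [fub]
    exact h3
  have h3 : volume {x : Fin N → ℂ | x ∈ CC a L (Fin N) ∧ Add a L x n} * K ≤
      volume (CC (a - s) (L + 2 * s) (Fin (N + n))) := by
    rw [mul_comm]
    exact (mul_le_mul_right h1 K).trans h2
  have h4 := ENNReal.toReal_mono (CC_fin _ _ _) h3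
  rw [ENNReal.toReal_mul] at h4
  have h5 : K.toReal = (n ! : ℝ) * (π * s ^ 2) ^ n := by
    rw [hK, ENNReal.toReal_mul, ENNReal.toReal_pow, ENNReal.toReal_mul, ENNReal.toReal_pow,
      ENNReal.toReal_ofReal hs.le]
    simp only [ENNReal.toReal_natCast, ENNReal.coe_toReal, NNReal.coe_real_pi]
    rw [mul_comm (s ^ 2) π]
  rw [h5] at h4
  exact h4

end Pool.Agent.H96.CP
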