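import Pool.Agent.H96.CP.Stm

/-!
# Project CP (helper96), module S_block: bound of the block volume
-/

set_option autoImplicit false

open Real Set MeasureTheory Metric Filter Topology
open scoped ENNReal Nat ComplexConjugate

namespace Pool.Agent.H52.CP

open Pool.Agent.H96.HD Pool.Agent.H96.CP

/-- mixed second difference -/
noncomputable def Y (u : ℕ → ℕ → ℂ) (i j : ℕ) : ℂ :=
  u (i + 1) (j + 1) - u i (j + 1) - u (i + 1) j + u i j

lemma re_Y (u : ℕ → ℕ → ℂ) (i j : ℕ) : (Y u i j).re = D0 u i (j + 1) - D0 u i j := by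
  unfold Y D0
  simp only [Complex.sub_re, Complex.add_re]
  ring

lemma om_Y (u : ℕ → ℕ → ℂ) (i j : ℕ) :
    (conj Pool.Agent.H96.CP.om * Y u i j).re = D1 u (i + 1) j - D1 u i j := by
  unfold Y D1
  rw [← Complex.sub_re]
  congr 1
  ring

lemma norm_le_om (z : ℂ) : ‖z‖ ≤ 2 * |z.re| + 2 * |(conj Pool.Agent.H96.CP.om * z).re| := by
  have h3 : (0 : ℝ) ≤ √3 := Real.sqrt_nonneg 3
  have h3' : √3 ^ 2 = 3 := Real.sq_sqrt (by norm_num)
  have h31 : 1 ≤ √3 := by
    rw [Real.one_le_sqrt]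
    norm_num
  have e1 : (conj Pool.Agent.H96.CP.om * z).re = z.re / 2 + √3 / 2 * z.im := by
    unfold Pool.Agent.H96.CP.om
    simp [Complex.mul_re]
    ring
  have h1 := Complex.norm_le_abs_re_add_abs_im z
  have h2 : |z.im| ≤ |z.re| + 2 * |(conj Pool.Agent.H96.CP.om * z).re| := by
    have e2 : √3 * z.im = 2 * (conj Pool.Agent.H96.CP.om * z).re - z.re := by
      rw [e1]
      ring
    have h4 : |z.im| ≤ |√3 * z.im| := by
      rw [abs_mul, abs_of_nonneg h3]
      exact le_mul_of_one_le_left (abs_nonneg _) h31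
    rw [e2] at h4
    have h5 := abs_sub (2 * (conj Pool.Agent.H96.CP.om * z).re) z.re
    rw [abs_mul, abs_of_pos (by norm_num : (0 : ℝ) < 2)] at h5
    linarith
  linarith

section sums

variable {m : ℕ} {u : ℕ → ℕ → ℂ}

lemma norm_Y_le (hu : Pos (m + 1) u) {i j : ℕ} (hi : i < m) (hj : j < m) :
    ‖Y u i j‖ ≤ 2 * (D0 u i (j + 1) + D0 u i j) + 2 * (D1 u (i + 1) j + D1 u i j) := by
  have h1 := hu.1 i (j + 1) (by omega) (by omega)
  have h2 := hu.1 i j (by omega) (by omega)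
  have h3 := hu.2.1 (i + 1) j (by omega) (by omega)
  have h4 := hu.2.1 i j (by omega) (by omega)
  have h5 := norm_le_om (Y u i j)
  rw [re_Y, om_Y] at h5
  have h6 : |D0 u i (j + 1) - D0 u i j| ≤ D0 u i (j + 1) + D0 u i j := by
    rw [abs_le]
    constructor <;> linarith
  have h7 : |D1 u (i + 1) j - D1 u i j| ≤ D1 u (i + 1) j + D1 u i j := by
    rw [abs_le]
    constructor <;> linarith
  linarith

/-- a sum over a shifted part of a range -/
lemma sum_shift_le (f : ℕ → ℝ) (m n : ℕ) (hn : m + 1 ≤ n) (hf : ∀ j < n, 0 ≤ f j) :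
    ∑ j ∈ Finset.range m, f (j + 1) ≤ ∑ j ∈ Finset.range n, f j := by
  have h1 : ∑ j ∈ Finset.range m, f (j + 1) ≤ ∑ j ∈ Finset.range (m + 1), f j := by
    rw [Finset.sum_range_succ']
    have := hf 0 (by omega)
    linarith
  refine h1.trans (Finset.sum_le_sum_of_subset_of_nonneg ?_ fun j hj _ => ?_)
  · intro j hj
    rw [Finset.mem_range] at hj ⊢
    omega
  · exact hf j (Finset.mem_range.1 hj)

lemma sum_part_le (f : ℕ → ℝ) (m n : ℕ) (hn : m ≤ n) (hf : ∀ j < n, 0 ≤ f j) :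
    ∑ j ∈ Finset.range m, f j ≤ ∑ j ∈ Finset.range n, f j := by
  refine Finset.sum_le_sum_of_subset_of_nonneg ?_ fun j hj _ => ?_
  · intro j hj
    rw [Finset.mem_range] at hj ⊢
    omega
  · exact hf j (Finset.mem_range.1 hj)

lemma sum_Y_le (hu : Pos (m + 1) u) :
    ∑ i ∈ Finset.range m, ∑ j ∈ Finset.range m, ‖Y u i j‖ ≤ 4 * A (m + 1) u := by
  have h1 : ∑ i ∈ Finset.range m, ∑ j ∈ Finset.range m, ‖Y u i j‖ ≤
      2 * (∑ i ∈ Finset.range m, ∑ j ∈ Finset.range m, D0 u i (j + 1) +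
        ∑ i ∈ Finset.range m, ∑ j ∈ Finset.range m, D0 u i j) +
      2 * (∑ i ∈ Finset.range m, ∑ j ∈ Finset.range m, D1 u (i + 1) j +
        ∑ i ∈ Finset.range m, ∑ j ∈ Finset.range m, D1 u i j) := by
    rw [← Finset.sum_add_distrib, ← Finset.sum_add_distrib, Finset.mul_sum, Finset.mul_sum,
      ← Finset.sum_add_distrib]
    refine Finset.sum_le_sum fun i hi => ?_
    rw [← Finset.sum_add_distrib, ← Finset.sum_add_distrib, Finset.mul_sum, Finset.mul_sum,
      ← Finset.sum_add_distrib]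
    refine Finset.sum_le_sum fun j hj => ?_
    exact norm_Y_le hu (Finset.mem_range.1 hi) (Finset.mem_range.1 hj)
  set S0 := ∑ i ∈ Finset.range (m + 1), ∑ j ∈ Finset.range (m + 1 + 1), D0 u i j with hS0
  set S1 := ∑ i ∈ Finset.range (m + 1 + 1), ∑ j ∈ Finset.range (m + 1), D1 u i j with hS1
  set S2 := ∑ i ∈ Finset.range (m + 1), ∑ j ∈ Finset.range (m + 1), D2 u i j with hS2
  have hS20 : 0 ≤ S2 := Finset.sum_nonneg fun i hi => Finset.sum_nonneg fun j hj =>
    hu.2.2 i j (Finset.mem_range.1 hi) (Finset.mem_range.1 hj)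
  have n0 : ∀ i < m + 1, ∀ j < m + 1 + 1, 0 ≤ D0 u i j := fun i hi j hj =>
    hu.1 i j hi (by omega)
  have n1 : ∀ i < m + 1 + 1, ∀ j < m + 1, 0 ≤ D1 u i j := fun i hi j hj =>
    hu.2.1 i j (by omega) hj
  have a1 : ∑ i ∈ Finset.range m, ∑ j ∈ Finset.range m, D0 u i (j + 1) ≤ S0 := by
    calc _ ≤ ∑ i ∈ Finset.range m, ∑ j ∈ Finset.range (m + 1 + 1), D0 u i j :=
          Finset.sum_le_sum fun i hi => sum_shift_le (fun j => D0 u i j) m _ (by omega)
            fun j hj => n0 i (by have := Finset.mem_range.1 hi; omega) j hj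
      _ ≤ S0 := sum_part_le (fun i => ∑ j ∈ Finset.range (m + 1 + 1), D0 u i j) m _ (by omega)
          fun i hi => Finset.sum_nonneg fun j hj => n0 i hi j (Finset.mem_range.1 hj)
  have a2 : ∑ i ∈ Finset.range m, ∑ j ∈ Finset.range m, D0 u i j ≤ S0 := by
    calc _ ≤ ∑ i ∈ Finset.range m, ∑ j ∈ Finset.range (m + 1 + 1), D0 u i j :=
          Finset.sum_le_sum fun i hi => sum_part_le (fun j => D0 u i j) m _ (by omega)
            fun j hj => n0 i (by have := Finset.mem_range.1 hi; omega) j hj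
      _ ≤ S0 := sum_part_le (fun i => ∑ j ∈ Finset.range (m + 1 + 1), D0 u i j) m _ (by omega)
          fun i hi => Finset.sum_nonneg fun j hj => n0 i hi j (Finset.mem_range.1 hj)
  have a3 : ∑ i ∈ Finset.range m, ∑ j ∈ Finset.range m, D1 u (i + 1) j ≤ S1 := by
    calc _ ≤ ∑ i ∈ Finset.range m, ∑ j ∈ Finset.range (m + 1), D1 u (i + 1) j :=
          Finset.sum_le_sum fun i hi => sum_part_le (fun j => D1 u (i + 1) j) m _ (by omega)
            fun j hj => n1 (i + 1) (by have := Finset.mem_range.1 hi; omega) j hj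
      _ ≤ S1 := sum_shift_le (fun i => ∑ j ∈ Finset.range (m + 1), D1 u i j) m _ (by omega)
          fun i hi => Finset.sum_nonneg fun j hj => n1 i hi j (Finset.mem_range.1 hj)
  have a4 : ∑ i ∈ Finset.range m, ∑ j ∈ Finset.range m, D1 u i j ≤ S1 := by
    calc _ ≤ ∑ i ∈ Finset.range m, ∑ j ∈ Finset.range (m + 1), D1 u i j :=
          Finset.sum_le_sum fun i hi => sum_part_le (fun j => D1 u i j) m _ (by omega)
            fun j hj => n1 i (by have := Finset.mem_range.1 hi; omega) j hj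
      _ ≤ S1 := sum_part_le (fun i => ∑ j ∈ Finset.range (m + 1), D1 u i j) m _ (by omega)
          fun i hi => Finset.sum_nonneg fun j hj => n1 i hi j (Finset.mem_range.1 hj)
  have hA : A (m + 1) u = S0 + S1 + S2 := rfl
  rw [hA]
  linarith

end sums

/-- the total elongation of a perturbation in the interior vanishes -/
lemma A_eq (m : ℕ) (b c : ℕ → ℕ → ℂ)
    (h : ∀ i j, ¬ ((1 ≤ i ∧ i ≤ m) ∧ 1 ≤ j ∧ j ≤ m) → b i j = c i j) :
    A (m + 1) b = A (m + 1) c := by
  obtain ⟨v, hv⟩ : ∃ v : ℕ → ℕ → ℂ, v = fun i j => b i j - c i j := ⟨_, rfl⟩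
  have hv0 : ∀ i j, ¬ ((1 ≤ i ∧ i ≤ m) ∧ 1 ≤ j ∧ j ≤ m) → v i j = 0 := by
    intro i j hij
    rw [hv]
    simp only
    rw [h i j hij, sub_self]
  have d0 : ∀ i j, D0 b i j - D0 c i j = (v (i + 1) j - v i j).re := by
    intro i j
    rw [hv]
    unfold D0
    simp only [Complex.sub_re]
    ring
  have d1 : ∀ i j, D1 b i j - D1 c i j =
      (conj Pool.Agent.H96.CP.om * (v i (j + 1) - v i j)).re := by
    intro i j
    rw [hv]
    unfold D1
    rw [← Complex.sub_re]
    congr 1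
    ring
  have d2 : ∀ i j, D2 b i j - D2 c i j =
      (conj (Pool.Agent.H96.CP.om - 1) * (v i (j + 1) - v (i + 1) j)).re := by
    intro i j
    rw [hv]
    unfold D2
    rw [← Complex.sub_re]
    congr 1
    ring
  have s0 : ∑ i ∈ Finset.range (m + 1), ∑ j ∈ Finset.range (m + 1 + 1), D0 b i j -
      ∑ i ∈ Finset.range (m + 1), ∑ j ∈ Finset.range (m + 1 + 1), D0 c i j = 0 := by
    rw [← Finset.sum_sub_distrib, Finset.sum_congr rfl fun i _ => (Finset.sum_sub_distrib _ _).symm,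
      Finset.sum_comm]
    refine Finset.sum_eq_zero fun j _ => ?_
    simp only [d0]
    rw [← Complex.re_sum, Finset.sum_range_sub (fun i => v i j)]
    rw [hv0 (m + 1) j (by omega), hv0 0 j (by omega), sub_zero, Complex.zero_re]
  have s1 : ∑ i ∈ Finset.range (m + 1 + 1), ∑ j ∈ Finset.range (m + 1), D1 b i j -
      ∑ i ∈ Finset.range (m + 1 + 1), ∑ j ∈ Finset.range (m + 1), D1 c i j = 0 := by
    rw [← Finset.sum_sub_distrib]
    refine Finset.sum_eq_zero fun i _ => ?_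
    rw [← Finset.sum_sub_distrib]
    simp only [d1]
    rw [← Complex.re_sum, ← Finset.mul_sum, Finset.sum_range_sub (fun j => v i j)]
    rw [hv0 i (m + 1) (by omega), hv0 i 0 (by omega), sub_zero, mul_zero, Complex.zero_re]
  have s2 : ∑ i ∈ Finset.range (m + 1), ∑ j ∈ Finset.range (m + 1), D2 b i j -
      ∑ i ∈ Finset.range (m + 1), ∑ j ∈ Finset.range (m + 1), D2 c i j = 0 := by
    rw [← Finset.sum_sub_distrib, Finset.sum_congr rfl fun i _ => (Finset.sum_sub_distrib _ _).symm]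
    simp only [d2]
    have e1 : ∑ i ∈ Finset.range (m + 1), ∑ j ∈ Finset.range (m + 1),
        (conj (Pool.Agent.H96.CP.om - 1) * (v i (j + 1) - v (i + 1) j)).re =
        (conj (Pool.Agent.H96.CP.om - 1) *
          (∑ i ∈ Finset.range (m + 1), ∑ j ∈ Finset.range (m + 1), v i (j + 1) -
            ∑ i ∈ Finset.range (m + 1), ∑ j ∈ Finset.range (m + 1), v (i + 1) j)).re := by
      rw [← Finset.sum_sub_distrib, Finset.mul_sum, Complex.re_sum]
      refine Finset.sum_congr rfl fun i _ => ?_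
      rw [← Finset.sum_sub_distrib, Finset.mul_sum, Complex.re_sum]
    rw [e1]
    have e2 : ∑ i ∈ Finset.range (m + 1), ∑ j ∈ Finset.range (m + 1), v i (j + 1) =
        ∑ i ∈ Finset.range (m + 1), ∑ j ∈ Finset.range (m + 1), v i j := by
      refine Finset.sum_congr rfl fun i _ => ?_
      have h1 := Finset.sum_range_succ' (fun j => v i j) (m + 1)
      have h2 := Finset.sum_range_succ (fun j => v i j) (m + 1)
      rw [hv0 i 0 (by omega), add_zero] at h1
      rw [hv0 i (m + 1) (by omega), add_zero] at h2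
      rw [← h1, h2]
    have e3 : ∑ i ∈ Finset.range (m + 1), ∑ j ∈ Finset.range (m + 1), v (i + 1) j =
        ∑ i ∈ Finset.range (m + 1), ∑ j ∈ Finset.range (m + 1), v i j := by
      rw [Finset.sum_comm, Finset.sum_comm (s := Finset.range (m + 1)) (t := Finset.range (m + 1))
        (f := fun i j => v i j)]
      refine Finset.sum_congr rfl fun j _ => ?_
      have h1 := Finset.sum_range_succ' (fun i => v i j) (m + 1)
      have h2 := Finset.sum_range_succ (fun i => v i j) (m + 1)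
      rw [hv0 0 j (by omega), add_zero] at h1
      rw [hv0 (m + 1) j (by omega), add_zero] at h2
      rw [← h1, h2]
    rw [e2, e3, sub_self, mul_zero, Complex.zero_re]
  unfold A
  linarith

lemma A_glue (m : ℕ) (b : ℕ → ℕ → ℂ) (w : Fin m × Fin m → ℂ) :
    A (m + 1) (glue m b w) = A (m + 1) b := by
  refine A_eq m _ _ fun i j hij => ?_
  unfold glue
  rw [dif_neg hij]

/-! ### the predictor -/

/-- the interior values, extended by zero -/
noncomputable def z0 (m : ℕ) (w : Fin m × Fin m → ℂ) : ℕ → ℕ → ℂ := glue m (fun _ _ => 0) w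

/-- the boundary values, zero in the interior -/
noncomputable def b0 (m : ℕ) (b : ℕ → ℕ → ℂ) : ℕ → ℕ → ℂ := fun i j =>
  if (1 ≤ i ∧ i ≤ m) ∧ 1 ≤ j ∧ j ≤ m then 0 else b i j

lemma glue_eq (m : ℕ) (b : ℕ → ℕ → ℂ) (w : Fin m × Fin m → ℂ) (i j : ℕ) :
    glue m b w i j = z0 m w i j + b0 m b i j := by
  unfold z0 b0 glue
  split_ifs <;> simp

lemma z0_add (m : ℕ) (w w' : Fin m × Fin m → ℂ) (i j : ℕ) :
    z0 m (w + w') i j = z0 m w i j + z0 m w' i j := by
  unfold z0 glue
  split_ifs <;> simp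

lemma z0_smul (m : ℕ) (c : ℝ) (w : Fin m × Fin m → ℂ) (i j : ℕ) :
    z0 m (c • w) i j = c • z0 m w i j := by
  unfold z0 glue
  split_ifs <;> simp

lemma z0_val (m : ℕ) (w : Fin m × Fin m → ℂ) (q : Fin m × Fin m) :
    z0 m w (q.1 + 1) (q.2 + 1) = w q := by
  obtain ⟨⟨i, hi⟩, ⟨j, hj⟩⟩ := q
  unfold z0 glue
  rw [dif_pos (by simp only; omega)]
  rfl

/-- the predictor -/
noncomputable def pr (m : ℕ) : (Fin m × Fin m → ℂ) →ₗ[ℝ] (Fin m × Fin m → ℂ) where
  toFun w := fun q => z0 m w q.1 (q.2 + 1) + z0 m w (q.1 + 1) q.2 - z0 m w q.1 q.2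
  map_add' w w' := by
    funext q
    simp only [z0_add, Pi.add_apply]
    ring
  map_smul' c w := by
    funext q
    simp only [z0_smul, Pi.smul_apply, RingHom.id_apply]
    rw [smul_sub, smul_add]

/-- the constant part -/
noncomputable def cst (m : ℕ) (b : ℕ → ℕ → ℂ) : Fin m × Fin m → ℂ := fun q =>
  b0 m b q.1 q.2 - b0 m b q.1 (q.2 + 1) - b0 m b (q.1 + 1) q.2

lemma Y_glue (m : ℕ) (b : ℕ → ℕ → ℂ) (w : Fin m × Fin m → ℂ) (q : Fin m × Fin m) :
    Y (glue m b w) q.1 q.2 = (w - pr m w + cst m b) q := by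
  have h1 : b0 m b (q.1 + 1) (q.2 + 1) = 0 := by
    obtain ⟨⟨i, hi⟩, ⟨j, hj⟩⟩ := q
    unfold b0
    rw [if_pos (by simp only; omega)]
  unfold Y
  simp only [glue_eq, z0_val, h1, Pi.add_apply, Pi.sub_apply]
  change _ = w q - (z0 m w q.1 (q.2 + 1) + z0 m w (q.1 + 1) q.2 - z0 m w q.1 q.2) +
    (b0 m b q.1 q.2 - b0 m b q.1 (q.2 + 1) - b0 m b (q.1 + 1) q.2)
  ring

lemma z0_congr (m : ℕ) (x y : Fin m × Fin m → ℂ) (r i j : ℕ) (hr : i + j < r + 2)
    (h : ∀ q : Fin m × Fin m, (q.1 : ℕ) + q.2 < r → x q = y q) : z0 m x i j = z0 m y i j := by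
  unfold z0 glue
  split_ifs with h1
  · apply h
    simp only
    omega
  · rfl

lemma pr_congr (m : ℕ) (q : Fin m × Fin m) (x y : Fin m × Fin m → ℂ)
    (h : ∀ q' : Fin m × Fin m, (q'.1 : ℕ) + q'.2 < (q.1 : ℕ) + q.2 → x q' = y q') :
    pr m x q = pr m y q := by
  change z0 m x q.1 (q.2 + 1) + z0 m x (q.1 + 1) q.2 - z0 m x q.1 q.2 =
    z0 m y q.1 (q.2 + 1) + z0 m y (q.1 + 1) q.2 - z0 m y q.1 q.2
  rw [z0_congr m x y ((q.1 : ℕ) + q.2) _ _ (by omega) h,
    z0_congr m x y ((q.1 : ℕ) + q.2) _ _ (by omega) h,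
    z0_congr m x y ((q.1 : ℕ) + q.2) _ _ (by omega) h]

/-! ### the integral -/

lemma lint_exp {ι : Type} [Fintype ι] {c : ℝ} (hc : 0 < c) :
    ∫⁻ x : ι → ℂ, ENNReal.ofReal (∏ q, Real.exp (-c * ‖x q‖)) =
      ENNReal.ofReal ((2 * π / c ^ 2) ^ Fintype.card ι) := by
  have hi : Integrable (fun y : ℂ => Real.exp (-c * ‖y‖)) := by
    by_contra hcon
    have h1 := integral_exp_norm hc
    rw [integral_undef hcon] at h1
    have : 0 < 2 * π / c ^ 2 := by positivity
    linarith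
  have hG : Integrable (fun x : ι → ℂ => ∏ q, Real.exp (-c * ‖x q‖)) :=
    Integrable.fintype_prod (f := fun (_ : ι) (y : ℂ) => Real.exp (-c * ‖y‖)) fun _ => hi
  rw [← ofReal_integral_eq_lintegral_ofReal hG
    (Filter.Eventually.of_forall fun x => Finset.prod_nonneg fun q _ => (Real.exp_pos _).le),
    integral_fintype_prod_volume_eq_prod (f := fun (_ : ι) (y : ℂ) => Real.exp (-c * ‖y‖))]
  congr 1
  rw [Finset.prod_congr rfl fun _ _ => integral_exp_norm hc, Finset.prod_const, Finset.card_univ]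

theorem block (hp : S_pred) : S_block := by
  refine ⟨128, by norm_num, fun m b θ hθ hθ1 => ?_⟩
  set c : ℝ := θ / 4 with hc
  have hc0 : 0 < c := by positivity
  obtain ⟨F, hF⟩ : ∃ F : (Fin m × Fin m → ℂ) → ℝ≥0∞,
      F = fun x => ENNReal.ofReal (∏ q, Real.exp (-c * ‖x q‖)) := ⟨_, rfl⟩
  have hFm : Measurable F := by
    rw [hF]
    fun_prop
  have hFc : Measurable fun x : Fin m × Fin m → ℂ => F (x + cst m b) :=
    hFm.comp (measurable_id.add_const _)
  have hprm : Measurable fun w : Fin m × Fin m → ℂ => w - pr m w := by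
    have : Continuous (pr m) := LinearMap.continuous_of_finiteDimensional _
    exact (continuous_id.sub this).measurable
  have h1 : vb m b ≤ ∫⁻ w, ENNReal.ofReal (Real.exp (θ * A (m + 1) b)) * F (w - pr m w + cst m b) := by
    refine meas_le_lintegral₀ ?_ ?_
    · exact ((hFc.comp hprm).const_mul _).aemeasurable
    · intro w hw
      have hw' : Pos (m + 1) (glue m b w) := hw
      have h2 := sum_Y_le hw'
      rw [A_glue] at h2
      have h3 : ∑ i ∈ Finset.range m, ∑ j ∈ Finset.range m, ‖Y (glue m b w) i j‖ =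
          ∑ q : Fin m × Fin m, ‖(w - pr m w + cst m b) q‖ := by
        rw [Fintype.sum_prod_type]
        simp only [← Y_glue]
        rw [Finset.sum_range fun i => ∑ j ∈ Finset.range m, ‖Y (glue m b w) i j‖]
        refine Finset.sum_congr rfl fun i _ => ?_
        rw [Finset.sum_range fun j => ‖Y (glue m b w) i j‖]
      rw [hF, ← ENNReal.ofReal_mul (Real.exp_pos _).le, ← Real.exp_sum, ← Finset.mul_sum,
        ← Real.exp_add]
      rw [h3] at h2
      rw [← ENNReal.ofReal_one]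
      refine ENNReal.ofReal_le_ofReal ?_
      rw [← Real.exp_zero]
      apply Real.exp_le_exp.2
      rw [hc]
      nlinarith
  refine h1.trans ?_
  have hmul : ∫⁻ w, ENNReal.ofReal (Real.exp (θ * A (m + 1) b)) * F (w - pr m w + cst m b) =
      ENNReal.ofReal (Real.exp (θ * A (m + 1) b)) * ∫⁻ w, F (w - pr m w + cst m b) :=
    lintegral_const_mul _ (hFc.comp hprm)
  rw [hmul]
  have h2 : ∫⁻ w, F (w - pr m w + cst m b) = ∫⁻ x, F x := by
    have h3 := hp (Fin m × Fin m) (pr m) (fun q => (q.1 : ℕ) + q.2)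
      (fun q x y h => pr_congr m q x y h) (fun x => F (x + cst m b)) hFc
    rw [h3]
    exact lintegral_add_right_eq_self F (cst m b)
  rw [h2, hF, lint_exp hc0, ← ENNReal.ofReal_mul (Real.exp_pos _).le]
  refine ENNReal.ofReal_le_ofReal (mul_le_mul_of_nonneg_left ?_ (Real.exp_pos _).le)
  rw [Fintype.card_prod, Fintype.card_fin, ← sq]
  refine pow_le_pow_left₀ (by positivity) ?_ _
  rw [hc, div_le_div_iff₀ (by positivity) (by positivity)]
  have hpi := Real.pi_lt_d2
  have : 0 < θ ^ 2 := by positivity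
  nlinarith

end Pool.Agent.H52.CP
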