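import Pool.Agent.H96.CP.Stm3

/-!
# Project CP (helper96), module S_tor: the torus is not better than free boundary values
-/

set_option autoImplicit false

open Real Set MeasureTheory Metric Filter Topology
open scoped ENNReal Nat ComplexConjugate

namespace Pool.Agent.H52.CP

open Pool.Agent.H96.CP

/-! ### measure -/

/-- the volume of a set of configurations, by the value at one site and the relative positions -/
theorem vol_split (T : Type) [Fintype T] [DecidableEq T] (q0 : T) (t : ℝ) (ht : 0 < t)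
    (c : {q : T // q ≠ q0} → ℂ) (P : Set ({q : T // q ≠ q0} → ℂ)) (hP : MeasurableSet P) :
    ENNReal.ofReal (t ^ (2 * (Fintype.card T - 1))) * volume P ≤
      volume {u : T → ℂ | ‖u q0‖ ≤ 1 ∧
        (fun q : {q : T // q ≠ q0} => (t : ℂ)⁻¹ * (u q.1 - u q0) - c q) ∈ P} := by
  classical
  set e := MeasurableEquiv.piEquivPiSubtypeProd (fun _ : T => ℂ) (fun q => q ≠ q0) with he
  have hvp := volume_preserving_piEquivPiSubtypeProd (fun _ : T => ℂ) (fun q => q ≠ q0)
  let z0 : {q : T // ¬ q ≠ q0} := ⟨q0, by simp⟩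
  set S' : Set (({q : T // q ≠ q0} → ℂ) × ({q : T // ¬ q ≠ q0} → ℂ)) :=
    {x | ‖x.2 z0‖ ≤ 1 ∧ (fun q : {q : T // q ≠ q0} => (t : ℂ)⁻¹ * (x.1 q - x.2 z0) - c q) ∈ P}
    with hS'
  have hS'm : MeasurableSet S' := by
    refine MeasurableSet.inter ?_ ?_
    · exact measurableSet_le (f := fun x : ({q : T // q ≠ q0} → ℂ) × ({q : T // ¬ q ≠ q0} → ℂ) =>
        ‖x.2 z0‖) (by fun_prop) measurable_const
    · have hm : Measurable fun x : ({q : T // q ≠ q0} → ℂ) × ({q : T // ¬ q ≠ q0} → ℂ) =>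
          (fun q : {q : T // q ≠ q0} => (t : ℂ)⁻¹ * (x.1 q - x.2 z0) - c q) := by
        refine measurable_pi_lambda _ fun q => ?_
        fun_prop
      exact hm hP
  have h1 : {u : T → ℂ | ‖u q0‖ ≤ 1 ∧
      (fun q : {q : T // q ≠ q0} => (t : ℂ)⁻¹ * (u q.1 - u q0) - c q) ∈ P} = e ⁻¹' S' := rfl
  rw [h1, hvp.measure_preimage hS'm.nullMeasurableSet]
  have h2 : (volume : Measure (({q : T // q ≠ q0} → ℂ) × ({q : T // ¬ q ≠ q0} → ℂ))) =
      (volume : Measure ({q : T // q ≠ q0} → ℂ)).prod volume := rfl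
  rw [h2, Measure.prod_apply_symm hS'm]
  set K : ℝ≥0∞ := ENNReal.ofReal (t ^ (2 * (Fintype.card T - 1))) * volume P with hK
  have hfin : Module.finrank ℝ ({q : T // q ≠ q0} → ℂ) = 2 * (Fintype.card T - 1) := by
    rw [Module.finrank_pi_fintype]
    simp only [Complex.finrank_real_complex, Finset.sum_const, Finset.card_univ, smul_eq_mul]
    have hc : Fintype.card {q : T // q ≠ q0} = Fintype.card T - 1 := by
      rw [Fintype.card_subtype, Finset.filter_ne', Finset.card_erase_of_mem (Finset.mem_univ _),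
        Finset.card_univ]
    rw [hc, mul_comm]
  have h3 : ∀ y ∈ Set.pi Set.univ (fun _ : {q : T // ¬ q ≠ q0} => closedBall (0 : ℂ) 1),
      K ≤ volume ((fun x => (x, y)) ⁻¹' S') := by
    intro y hy
    have hy1 : ‖y z0‖ ≤ 1 := by
      have := hy z0 (Set.mem_univ _)
      rwa [mem_closedBall_zero_iff] at this
    have e1 : ((fun x => (x, y)) ⁻¹' S') = (fun v : {q : T // q ≠ q0} → ℂ => t⁻¹ • v) ⁻¹'
        ((fun v : {q : T // q ≠ q0} → ℂ => v + fun q => -((t : ℂ)⁻¹ * y z0) - c q) ⁻¹' P) := by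
      ext v
      simp only [mem_preimage, hS', mem_setOf_eq]
      constructor
      · rintro ⟨-, h⟩
        refine (congrArg (· ∈ P) ?_).mp h
        funext q
        simp only [Pi.add_apply, Pi.smul_apply, Complex.real_smul, Complex.ofReal_inv]
        ring
      · intro h
        refine ⟨hy1, (congrArg (· ∈ P) ?_).mp h⟩
        funext q
        simp only [Pi.add_apply, Pi.smul_apply, Complex.real_smul, Complex.ofReal_inv]
        ring
    rw [e1, Measure.addHaar_preimage_smul _ (inv_ne_zero ht.ne'), measure_preimage_add_right, hfin, hK]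
    gcongr
    rw [inv_pow, inv_inv, abs_of_pos (by positivity)]
  have h4 : (1 : ℝ≥0∞) ≤ volume (Set.pi Set.univ
      (fun _ : {q : T // ¬ q ≠ q0} => closedBall (0 : ℂ) 1)) := by
    rw [volume_pi_pi, Finset.prod_const]
    refine one_le_pow₀ ?_
    rw [Complex.volume_closedBall, ENNReal.ofReal_one, one_pow, one_mul]
    have : (1 : ℝ≥0∞) = ((1 : NNReal) : ℝ≥0∞) := rfl
    rw [this, ENNReal.coe_le_coe]
    have h5 : (1 : ℝ) ≤ Real.pi := by linarith [Real.pi_gt_three]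
    exact h5
  calc K ≤ K * volume (Set.pi Set.univ
        (fun _ : {q : T // ¬ q ≠ q0} => closedBall (0 : ℂ) 1)) := le_mul_of_one_le_right' h4
    _ = ∫⁻ _y in Set.pi Set.univ (fun _ : {q : T // ¬ q ≠ q0} => closedBall (0 : ℂ) 1), K := by
        rw [setLIntegral_const]
    _ ≤ ∫⁻ y in Set.pi Set.univ (fun _ : {q : T // ¬ q ≠ q0} => closedBall (0 : ℂ) 1),
          volume ((fun x => (x, y)) ⁻¹' S') :=
        setLIntegral_mono' (MeasurableSet.univ_pi fun _ => measurableSet_closedBall) h3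
    _ ≤ _ := setLIntegral_le_lintegral _ _

/-! ### the geometry -/

lemma om_re : om.re = 1 / 2 := rfl
lemma om_im : om.im = √3 / 2 := rfl

lemma conj_om_mul : conj om * om = 1 := by
  have h3 : √3 * √3 = 3 := Real.mul_self_sqrt (by norm_num)
  apply Complex.ext
  · simp only [Complex.mul_re, Complex.conj_re, Complex.conj_im, om_re, om_im, Complex.one_re]
    linear_combination (1 / 4) * h3
  · simp only [Complex.mul_im, Complex.conj_re, Complex.conj_im, om_re, om_im, Complex.one_im]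
    ring

lemma conj_om1_mul : conj (om - 1) * (om - 1) = 1 := by
  have h3 : √3 * √3 = 3 := Real.mul_self_sqrt (by norm_num)
  apply Complex.ext
  · simp only [Complex.mul_re, Complex.conj_re, Complex.conj_im, om_re, om_im, Complex.one_re,
      Complex.sub_re, Complex.sub_im, Complex.one_im]
    linear_combination (1 / 4) * h3
  · simp only [Complex.mul_im, Complex.conj_re, Complex.conj_im, om_re, om_im, Complex.one_im,
      Complex.sub_re, Complex.sub_im, Complex.one_re]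
    ring

lemma norm_om : ‖om‖ = 1 := by
  have h3 : √3 * √3 = 3 := Real.mul_self_sqrt (by norm_num)
  rw [← sq_eq_sq₀ (norm_nonneg _) zero_le_one, ← Complex.normSq_eq_norm_sq, Complex.normSq_apply,
    om_re, om_im]
  linear_combination (1 / 4) * h3

/-- the relations in a triangle -/
lemma tri (a b c : ℂ) (h : b - a = c) :
    √3 * ((conj om * b).im - a.im) = 2 * (conj (om - 1) * c).re - a.re - (conj om * b).re ∧
    2 * (conj (om - 1) * c).im = a.im + (conj om * b).im + √3 * (a.re - (conj om * b).re) := by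
  have h3 : √3 * √3 = 3 := Real.mul_self_sqrt (by norm_num)
  subst h
  simp only [Complex.mul_im, Complex.mul_re, Complex.conj_re, Complex.conj_im, om_re, om_im,
    Complex.sub_re, Complex.sub_im, Complex.one_re, Complex.one_im]
  constructor
  · linear_combination (-(b.re) / 2) * h3
  · linear_combination (b.im / 2) * h3

lemma tri_bd (a b c : ℂ) (S : ℝ) (h : b - a = c) (hS : 0 ≤ S) (ha : |a.re| ≤ S)
    (hb : |(conj om * b).re| ≤ S) (hc : |(conj (om - 1) * c).re| ≤ S) :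
    |(conj om * b).im - a.im| ≤ 3 * S ∧
    |2 * (conj (om - 1) * c).im - a.im - (conj om * b).im| ≤ 4 * S := by
  obtain ⟨h1, h2⟩ := tri a b c h
  have h3 : √3 * √3 = 3 := Real.mul_self_sqrt (by norm_num)
  have h4 : 0 ≤ √3 := Real.sqrt_nonneg 3
  have h5 : √3 ≤ 2 := by nlinarith
  have h6 : 3 / 2 ≤ √3 := by nlinarith
  rw [abs_le] at ha hb hc
  constructor
  · rw [abs_le]
    constructor
    · by_contra hh
      push Not at hh
      nlinarith [mul_nonneg hS (by linarith : 0 ≤ √3 - 3 / 2)]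
    · by_contra hh
      push Not at hh
      nlinarith [mul_nonneg hS (by linarith : 0 ≤ √3 - 3 / 2)]
  · have e1 : 2 * (conj (om - 1) * c).im - a.im - (conj om * b).im =
        √3 * (a.re - (conj om * b).re) := by linarith
    rw [e1, abs_mul, abs_of_nonneg h4]
    have e2 : |a.re - (conj om * b).re| ≤ 2 * S := by
      rw [abs_le]
      constructor <;> linarith
    calc √3 * |a.re - (conj om * b).re| ≤ 2 * (2 * S) :=
          mul_le_mul h5 e2 (abs_nonneg _) (by norm_num)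
      _ = 4 * S := by ring

section torus

variable {M : ℕ} (x : ZMod M × ZMod M → ℂ) (S : ℝ)

lemma row_step (hS : 0 ≤ S) (h0 : ∀ q, |E0 x q| ≤ S) (h1 : ∀ q, |E1 x q| ≤ S)
    (h2 : ∀ q, |E2 x q| ≤ S) (q : ZMod M × ZMod M) :
    |(x (q + (1, 0) + (1, 0)) - x (q + (1, 0))).im - (x (q + (1, 0)) - x q).im| ≤ 13 * S ∧
    |(conj om * (x (q + (0, 1)) - x q)).im - (x (q + (1, 0)) - x q).im| ≤ 3 * S := by
  obtain ⟨u1, u2⟩ := tri_bd (x (q + (1, 0)) - x q) (x (q + (0, 1)) - x q)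
    (x (q + (0, 1)) - x (q + (1, 0))) S (by ring) hS (h0 q) (h1 q) (h2 q)
  have e1 : q + (0, 1) + (1, 0) = q + (1, 0) + (0, 1) := by abel
  have k0 := h0 (q + (0, 1))
  unfold E0 at k0
  rw [e1] at k0
  obtain ⟨v1, v2⟩ := tri_bd (x (q + (1, 0) + (0, 1)) - x (q + (0, 1)))
    (x (q + (1, 0) + (0, 1)) - x (q + (1, 0)))
    (x (q + (0, 1)) - x (q + (1, 0))) S (by ring) hS k0 (h1 (q + (1, 0))) (h2 q)
  obtain ⟨w1, w2⟩ := tri_bd (x (q + (1, 0) + (1, 0)) - x (q + (1, 0)))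
    (x (q + (1, 0) + (0, 1)) - x (q + (1, 0)))
    (x (q + (1, 0) + (0, 1)) - x (q + (1, 0) + (1, 0))) S (by ring) hS (h0 (q + (1, 0)))
    (h1 (q + (1, 0))) (h2 (q + (1, 0)))
  refine ⟨?_, u1⟩
  rw [abs_le] at *
  constructor <;> linarith [u1.1, u1.2, u2.1, u2.2, v1.1, v1.2, v2.1, v2.2, w1.1, w1.2]

lemma add_one_zero {M : ℕ} (q : ZMod M × ZMod M) (i : ℕ) :
    q + ((i : ZMod M), 0) + (1, 0) = q + (((i + 1 : ℕ) : ZMod M), 0) := by
  ext <;> simp [add_assoc]

lemma row_sum (q : ZMod M × ZMod M) : ∑ i ∈ Finset.range M,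
    (x (q + ((i : ZMod M), 0) + (1, 0)) - x (q + ((i : ZMod M), 0))).im = 0 := by
  have h1 := add_one_zero q
  have h2 : ∑ i ∈ Finset.range M, (x (q + ((i : ZMod M), 0) + (1, 0)) - x (q + ((i : ZMod M), 0))).im =
      (∑ i ∈ Finset.range M, (x (q + (((i + 1 : ℕ) : ZMod M), 0)) - x (q + ((i : ZMod M), 0)))).im := by
    rw [Complex.im_sum]
    exact Finset.sum_congr rfl fun i _ => by rw [h1]
  rw [h2, Finset.sum_range_sub (fun i => x (q + ((i : ZMod M), 0)))]
  simp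

lemma row_bd (hM : 1 ≤ M) (hS : 0 ≤ S) (h0 : ∀ q, |E0 x q| ≤ S) (h1 : ∀ q, |E1 x q| ≤ S)
    (h2 : ∀ q, |E2 x q| ≤ S) (q : ZMod M × ZMod M) :
    |(x (q + (1, 0)) - x q).im| ≤ 13 * S * M := by
  set ρ : ℕ → ℝ := fun i => (x (q + ((i : ZMod M), 0) + (1, 0)) - x (q + ((i : ZMod M), 0))).im with hρ
  have hstep : ∀ i, |ρ (i + 1) - ρ i| ≤ 13 * S := by
    intro i
    have h3 := (row_step x S hS h0 h1 h2 (q + ((i : ZMod M), 0))).1
    have e1 := add_one_zero q i
    simp only [hρ]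
    rw [← e1]
    exact h3
  have hdist : ∀ i, |ρ i - ρ 0| ≤ 13 * S * i := by
    intro i
    induction i with
    | zero => simp
    | succ i ih =>
      have h3 := hstep i
      push_cast
      rw [abs_le] at *
      constructor <;> linarith [h3.1, h3.2, ih.1, ih.2]
  have hsum : ∑ i ∈ Finset.range M, ρ i = 0 := row_sum x q
  have hM0 : (0 : ℝ) < M := by exact_mod_cast hM
  have h3 : (M : ℝ) * ρ 0 = -∑ i ∈ Finset.range M, (ρ i - ρ 0) := by
    rw [Finset.sum_sub_distrib, hsum, Finset.sum_const, Finset.card_range, nsmul_eq_mul]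
    ring
  have h4 : |∑ i ∈ Finset.range M, (ρ i - ρ 0)| ≤ M * (13 * S * M) := by
    refine (Finset.abs_sum_le_sum_abs _ _).trans ?_
    calc ∑ i ∈ Finset.range M, |ρ i - ρ 0| ≤ ∑ _i ∈ Finset.range M, 13 * S * M := by
          refine Finset.sum_le_sum fun i hi => (hdist i).trans ?_
          have : (i : ℝ) ≤ M := by exact_mod_cast (Finset.mem_range.1 hi).le
          have h5 : 0 ≤ 13 * S := by linarith
          exact mul_le_mul_of_nonneg_left this h5
      _ = M * (13 * S * M) := by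
          rw [Finset.sum_const, Finset.card_range, nsmul_eq_mul]
  have h5 : (M : ℝ) * |ρ 0| ≤ M * (13 * S * M) := by
    rw [← abs_of_pos hM0, ← abs_mul, abs_of_pos hM0, h3, abs_neg]
    exact h4
  have h6 : |ρ 0| ≤ 13 * S * M := le_of_mul_le_mul_left h5 hM0
  have e0 : q + (((0 : ℕ) : ZMod M), (0 : ZMod M)) = q := by
    ext <;> simp
  simp only [hρ] at h6
  rw [e0] at h6
  exact h6

lemma step_bd (hM : 1 ≤ M) (hS : 0 ≤ S) (h0 : ∀ q, |E0 x q| ≤ S) (h1 : ∀ q, |E1 x q| ≤ S)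
    (h2 : ∀ q, |E2 x q| ≤ S) (q : ZMod M × ZMod M) :
    ‖x (q + (1, 0)) - x q‖ ≤ 17 * S * M ∧ ‖x (q + (0, 1)) - x q‖ ≤ 17 * S * M := by
  have hr := row_bd x S hM hS h0 h1 h2 q
  have hs := (row_step x S hS h0 h1 h2 q).2
  have hM1 : (1 : ℝ) ≤ M := by exact_mod_cast hM
  have hSM : S ≤ S * M := le_mul_of_one_le_right hS hM1
  constructor
  · refine (Complex.norm_le_abs_re_add_abs_im _).trans ?_
    have := h0 q
    unfold E0 at this
    linarith
  · have e1 : ‖x (q + (0, 1)) - x q‖ = ‖conj om * (x (q + (0, 1)) - x q)‖ := by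
      rw [norm_mul, Complex.norm_conj, norm_om, one_mul]
    rw [e1]
    refine (Complex.norm_le_abs_re_add_abs_im _).trans ?_
    have h3 := h1 q
    unfold E1 at h3
    have h4 : |(conj om * (x (q + (0, 1)) - x q)).im| ≤ 13 * S * M + 3 * S := by
      rw [abs_le] at *
      constructor <;> linarith [hr.1, hr.2, hs.1, hs.2]
    linarith

lemma norm_bd (hM : 1 ≤ M) (hS : 0 ≤ S) (hx : x 0 = 0) (h0 : ∀ q, |E0 x q| ≤ S)
    (h1 : ∀ q, |E1 x q| ≤ S) (h2 : ∀ q, |E2 x q| ≤ S) (i j : ℕ) :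
    ‖x ((i : ZMod M), (j : ZMod M))‖ ≤ (i + j) * (17 * S * M) := by
  induction j with
  | zero =>
    induction i with
    | zero =>
      have : (((0 : ℕ) : ZMod M), ((0 : ℕ) : ZMod M)) = (0 : ZMod M × ZMod M) := by simp
      rw [this, hx]
      simp
    | succ i ih =>
      have h3 := (step_bd x S hM hS h0 h1 h2 ((i : ZMod M), ((0 : ℕ) : ZMod M))).1
      have e1 : ((i : ZMod M), ((0 : ℕ) : ZMod M)) + (1, 0) =
          (((i + 1 : ℕ) : ZMod M), ((0 : ℕ) : ZMod M)) := by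
        rw [Prod.mk_add_mk, add_zero]
        push_cast
        rfl
      rw [e1] at h3
      have h4 := norm_le_norm_add_norm_sub' (x (((i + 1 : ℕ) : ZMod M), ((0 : ℕ) : ZMod M)))
        (x ((i : ZMod M), ((0 : ℕ) : ZMod M)))
      push_cast at *
      nlinarith
  | succ j ih =>
    have h3 := (step_bd x S hM hS h0 h1 h2 ((i : ZMod M), (j : ZMod M))).2
    have e1 : ((i : ZMod M), (j : ZMod M)) + (0, 1) = ((i : ZMod M), ((j + 1 : ℕ) : ZMod M)) := by
      rw [Prod.mk_add_mk, add_zero]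
      push_cast
      rfl
    rw [e1] at h3
    have h4 := norm_le_norm_add_norm_sub' (x ((i : ZMod M), ((j + 1 : ℕ) : ZMod M)))
      (x ((i : ZMod M), (j : ZMod M)))
    push_cast at *
    nlinarith

end torus

/-! ### sums -/

lemma sum_diff {T : Type} [Fintype T] [AddGroup T] (x : T → ℂ) (a b : T) :
    ∑ q, (x (q + a) - x (q + b)) = 0 := by
  have h : ∀ c : T, ∑ q, x (q + c) = ∑ q, x q := fun c =>
    Fintype.sum_equiv (Equiv.addRight c) _ _ fun q => rfl
  rw [Finset.sum_sub_distrib, h, h, sub_self]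

lemma sum_E0 {M : ℕ} [NeZero M] (x : ZMod M × ZMod M → ℂ) : ∑ q, E0 x q = 0 := by
  have h := sum_diff x (1, 0) 0
  unfold E0
  simp only [add_zero] at h
  rw [← Complex.re_sum, h, Complex.zero_re]

lemma sum_E1 {M : ℕ} [NeZero M] (x : ZMod M × ZMod M → ℂ) : ∑ q, E1 x q = 0 := by
  have h := sum_diff x (0, 1) 0
  unfold E1
  simp only [add_zero] at h
  rw [← Complex.re_sum, ← Finset.mul_sum, h, mul_zero, Complex.zero_re]

lemma sum_E2 {M : ℕ} [NeZero M] (x : ZMod M × ZMod M → ℂ) : ∑ q, E2 x q = 0 := by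
  have h := sum_diff x (0, 1) (1, 0)
  unfold E2
  rw [← Complex.re_sum, ← Finset.mul_sum, h, mul_zero, Complex.zero_re]

lemma card_T {M : ℕ} [NeZero M] : Fintype.card (ZMod M × ZMod M) = M ^ 2 := by
  rw [Fintype.card_prod, ZMod.card, sq]

lemma abs_of_sum {M : ℕ} [NeZero M] (E : ZMod M × ZMod M → ℝ) (hs : ∑ q, E q = 0)
    (h : ∀ q, -1 ≤ E q) (q : ZMod M × ZMod M) : |E q| ≤ (M : ℝ) ^ 2 := by
  have h1 : E q + 1 ≤ ∑ q, (E q + 1) :=
    Finset.single_le_sum (f := fun q => E q + 1) (fun q _ => by linarith [h q]) (Finset.mem_univ q)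
  rw [Finset.sum_add_distrib, hs, Finset.sum_const, Finset.card_univ, card_T, nsmul_eq_mul] at h1
  push_cast at h1
  have hM : (1 : ℝ) ≤ M := by
    have : 1 ≤ M := Nat.pos_of_ne_zero (NeZero.ne M)
    exact_mod_cast this
  have h2 := h q
  rw [abs_le]
  constructor <;> nlinarith

lemma box_sum {M : ℕ} [NeZero M] (g : ZMod M × ZMod M → ℝ) (hg : ∀ q, 0 ≤ g q) (a b : ℕ)
    (ha : a ≤ M) (hb : b ≤ M) :
    ∑ i ∈ Finset.range a, ∑ j ∈ Finset.range b, g ((i : ZMod M), (j : ZMod M)) ≤ ∑ q, g q := by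
  classical
  rw [← Finset.sum_product']
  have hinj : Set.InjOn (fun p : ℕ × ℕ => ((p.1 : ZMod M), (p.2 : ZMod M)))
      (Finset.range a ×ˢ Finset.range b : Finset (ℕ × ℕ)) := by
    intro p hp p' hp' h
    rw [Finset.mem_coe, Finset.mem_product, Finset.mem_range, Finset.mem_range] at hp hp'
    simp only [Prod.mk.injEq] at h
    have e1 := congrArg ZMod.val h.1
    have e2 := congrArg ZMod.val h.2
    rw [ZMod.val_natCast_of_lt (by omega), ZMod.val_natCast_of_lt (by omega)] at e1 e2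
    exact Prod.ext e1 e2
  have h1 := Finset.sum_image (f := g) hinj
  rw [← h1]
  exact Finset.sum_le_univ_sum_of_nonneg hg

/-! ### measurability -/

lemma meas_pin {M : ℕ} (q : ZMod M × ZMod M) :
    Measurable fun w : {q : ZMod M × ZMod M // q ≠ 0} → ℂ => pin w q := by
  unfold pin
  split_ifs with h
  · exact measurable_const
  · exact measurable_pi_apply _

lemma measurableSet_PT (M : ℕ) (d₀ d₁ d₂ : ℝ) : MeasurableSet (PT M d₀ d₁ d₂) := by
  have hm := fun q => meas_pin (M := M) q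
  have : PT M d₀ d₁ d₂ = ⋂ q : ZMod M × ZMod M,
      ({w | -d₀ ≤ E0 (pin w) q} ∩ ({w | -d₁ ≤ E1 (pin w) q} ∩ {w | -d₂ ≤ E2 (pin w) q})) := by
    ext w
    simp [PT]
  rw [this]
  have hc : Countable (ZMod M × ZMod M) := by
    have : Countable (ZMod M) := by
      rcases M with _ | n
      · exact inferInstanceAs (Countable ℤ)
      · exact inferInstanceAs (Countable (Fin (n + 1)))
    infer_instance
  refine MeasurableSet.iInter fun q => ?_
  refine (measurableSet_le measurable_const ?_).inter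
    ((measurableSet_le measurable_const ?_).inter (measurableSet_le measurable_const ?_))
  · unfold E0
    exact Complex.measurable_re.comp ((hm _).sub (hm _))
  · unfold E1
    exact Complex.measurable_re.comp (((hm _).sub (hm _)).const_mul _)
  · unfold E2
    exact Complex.measurable_re.comp (((hm _).sub (hm _)).const_mul _)

/-! ### the configurations -/

/-- the reference configuration -/
noncomputable def rf {M : ℕ} (q : ZMod M × ZMod M) : ℂ := (q.1.val : ℂ) + (q.2.val : ℂ) * om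

section conf

variable {n : ℕ} {t : ℝ} (u : ZMod (n + 1) × ZMod (n + 1) → ℂ)

/-- the displacement -/
noncomputable def dis (t : ℝ) : {q : ZMod (n + 1) × ZMod (n + 1) // q ≠ 0} → ℂ :=
  fun q => (t : ℂ)⁻¹ * (u q.1 - u 0) - rf q.1

lemma pin_dis (q : ZMod (n + 1) × ZMod (n + 1)) :
    pin (dis u t) q = (t : ℂ)⁻¹ * (u q - u 0) - rf q := by
  unfold pin
  split_ifs with h
  · rw [h, sub_self, mul_zero, zero_sub]
    unfold rf
    simp
  · rfl

lemma u_eq (ht : 0 < t) (q : ZMod (n + 1) × ZMod (n + 1)) :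
    u q = u 0 + (t : ℂ) * (pin (dis u t) q + rf q) := by
  rw [pin_dis]
  have : (t : ℂ) ≠ 0 := Complex.ofReal_ne_zero.2 ht.ne'
  field_simp
  ring

lemma ext_eq (i j : ℕ) (hi : i ≤ n) (hj : j ≤ n) :
    ext n (u : Fin (n + 1) × Fin (n + 1) → ℂ) i j = u ((i : ZMod (n + 1)), (j : ZMod (n + 1))) := by
  unfold H96.CP.ext
  rw [dif_pos ⟨hi, hj⟩]
  have e1 : (⟨i, Nat.lt_succ_of_le hi⟩ : Fin (n + 1)) = ((i : ZMod (n + 1)) : Fin (n + 1)) := by
    apply Fin.ext
    exact (ZMod.val_natCast_of_lt (Nat.lt_succ_of_le hi)).symm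
  have e2 : (⟨j, Nat.lt_succ_of_le hj⟩ : Fin (n + 1)) = ((j : ZMod (n + 1)) : Fin (n + 1)) := by
    apply Fin.ext
    exact (ZMod.val_natCast_of_lt (Nat.lt_succ_of_le hj)).symm
  exact congrArg u (Prod.ext e1 e2)

lemma ext_eq' (ht : 0 < t) (i j : ℕ) (hi : i ≤ n) (hj : j ≤ n) :
    ext n (u : Fin (n + 1) × Fin (n + 1) → ℂ) i j =
      u 0 + (t : ℂ) * (pin (dis u t) ((i : ZMod (n + 1)), (j : ZMod (n + 1))) + (i + j * om)) := by
  rw [ext_eq u i j hi hj, u_eq u ht]
  unfold rf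
  simp only
  rw [ZMod.val_natCast_of_lt (Nat.lt_succ_of_le hi), ZMod.val_natCast_of_lt (Nat.lt_succ_of_le hj)]

lemma D0_eq (ht : 0 < t) (i j : ℕ) (hi : i < n) (hj : j ≤ n) :
    D0 (ext n (u : Fin (n + 1) × Fin (n + 1) → ℂ)) i j =
      t * (E0 (pin (dis u t)) ((i : ZMod (n + 1)), (j : ZMod (n + 1))) + 1) := by
  unfold D0 E0
  rw [ext_eq' u ht (i + 1) j hi hj, ext_eq' u ht i j hi.le hj]
  have e1 : ((i : ZMod (n + 1)), (j : ZMod (n + 1))) + (1, 0) =
      (((i + 1 : ℕ) : ZMod (n + 1)), (j : ZMod (n + 1))) := by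
    ext <;> simp
  rw [e1]
  generalize pin (dis u t) (((i + 1 : ℕ) : ZMod (n + 1)), (j : ZMod (n + 1))) = X
  generalize pin (dis u t) ((i : ZMod (n + 1)), (j : ZMod (n + 1))) = Y
  have e2 : u 0 + (t : ℂ) * (X + (((i + 1 : ℕ) : ℂ) + j * om)) - (u 0 + (t : ℂ) * (Y + (i + j * om))) =
      (t : ℂ) * (X - Y + 1) := by
    push_cast
    ring
  rw [e2, Complex.re_ofReal_mul, Complex.add_re, Complex.one_re]

lemma D1_eq (ht : 0 < t) (i j : ℕ) (hi : i ≤ n) (hj : j < n) :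
    D1 (ext n (u : Fin (n + 1) × Fin (n + 1) → ℂ)) i j =
      t * (E1 (pin (dis u t)) ((i : ZMod (n + 1)), (j : ZMod (n + 1))) + 1) := by
  unfold D1 E1
  rw [ext_eq' u ht i (j + 1) hi hj, ext_eq' u ht i j hi hj.le]
  have e1 : ((i : ZMod (n + 1)), (j : ZMod (n + 1))) + (0, 1) =
      ((i : ZMod (n + 1)), ((j + 1 : ℕ) : ZMod (n + 1))) := by
    ext <;> simp
  rw [e1]
  generalize pin (dis u t) ((i : ZMod (n + 1)), ((j + 1 : ℕ) : ZMod (n + 1))) = X
  generalize pin (dis u t) ((i : ZMod (n + 1)), (j : ZMod (n + 1))) = Y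
  have e2 : conj om * (u 0 + (t : ℂ) * (X + (i + ((j + 1 : ℕ) : ℂ) * om)) -
      (u 0 + (t : ℂ) * (Y + (i + j * om)))) = (t : ℂ) * (conj om * (X - Y) + 1) := by
    push_cast
    linear_combination (t : ℂ) * conj_om_mul
  rw [e2, Complex.re_ofReal_mul, Complex.add_re, Complex.one_re]

lemma D2_eq (ht : 0 < t) (i j : ℕ) (hi : i < n) (hj : j < n) :
    D2 (ext n (u : Fin (n + 1) × Fin (n + 1) → ℂ)) i j =
      t * (E2 (pin (dis u t)) ((i : ZMod (n + 1)), (j : ZMod (n + 1))) + 1) := by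
  unfold D2 E2
  rw [ext_eq' u ht i (j + 1) hi.le hj, ext_eq' u ht (i + 1) j hi hj.le]
  have e1 : ((i : ZMod (n + 1)), (j : ZMod (n + 1))) + (0, 1) =
      ((i : ZMod (n + 1)), ((j + 1 : ℕ) : ZMod (n + 1))) := by
    ext <;> simp
  have e1' : ((i : ZMod (n + 1)), (j : ZMod (n + 1))) + (1, 0) =
      (((i + 1 : ℕ) : ZMod (n + 1)), (j : ZMod (n + 1))) := by
    ext <;> simp
  rw [e1, e1']
  generalize pin (dis u t) ((i : ZMod (n + 1)), ((j + 1 : ℕ) : ZMod (n + 1))) = X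
  generalize pin (dis u t) (((i + 1 : ℕ) : ZMod (n + 1)), (j : ZMod (n + 1))) = Y
  have e2 : conj (om - 1) * (u 0 + (t : ℂ) * (X + (i + ((j + 1 : ℕ) : ℂ) * om)) -
      (u 0 + (t : ℂ) * (Y + (((i + 1 : ℕ) : ℂ) + j * om)))) =
      (t : ℂ) * (conj (om - 1) * (X - Y) + 1) := by
    push_cast
    linear_combination (t : ℂ) * conj_om1_mul
  rw [e2, Complex.re_ofReal_mul, Complex.add_re, Complex.one_re]

variable (hw : dis u t ∈ PT (n + 1) 1 1 1)

include hw in
lemma pos_conf (ht : 0 < t) : Pos n (ext n (u : Fin (n + 1) × Fin (n + 1) → ℂ)) := by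
  refine ⟨fun i j hi hj => ?_, fun i j hi hj => ?_, fun i j hi hj => ?_⟩
  · rw [D0_eq u ht i j hi hj]
    have := (hw ((i : ZMod (n + 1)), (j : ZMod (n + 1)))).1
    exact mul_nonneg ht.le (by linarith)
  · rw [D1_eq u ht i j hi hj]
    have := (hw ((i : ZMod (n + 1)), (j : ZMod (n + 1)))).2.1
    exact mul_nonneg ht.le (by linarith)
  · rw [D2_eq u ht i j hi hj]
    have := (hw ((i : ZMod (n + 1)), (j : ZMod (n + 1)))).2.2
    exact mul_nonneg ht.le (by linarith)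

lemma sum_full (E : ZMod (n + 1) × ZMod (n + 1) → ℝ) (hs : ∑ q, E q = 0) :
    ∑ q, t * (E q + 1) = t * ((n + 1 : ℕ) : ℝ) ^ 2 := by
  rw [← Finset.mul_sum, Finset.sum_add_distrib, hs, Finset.sum_const, Finset.card_univ, card_T,
    nsmul_eq_mul]
  push_cast
  ring

include hw in
lemma A_conf (ht : 0 < t) : A n (ext n (u : Fin (n + 1) × Fin (n + 1) → ℂ)) ≤
    3 * t * ((n + 1 : ℕ) : ℝ) ^ 2 := by
  unfold A
  have h0 : ∑ i ∈ Finset.range n, ∑ j ∈ Finset.range (n + 1),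
      D0 (ext n (u : Fin (n + 1) × Fin (n + 1) → ℂ)) i j ≤ t * ((n + 1 : ℕ) : ℝ) ^ 2 := by
    rw [← sum_full (t := t) (E0 (pin (dis u t))) (sum_E0 _)]
    refine le_trans (le_of_eq ?_) (box_sum (fun q => t * (E0 (pin (dis u t)) q + 1))
      (fun q => mul_nonneg ht.le (by linarith [(hw q).1])) n (n + 1) (by omega) le_rfl)
    refine Finset.sum_congr rfl fun i hi => Finset.sum_congr rfl fun j hj => ?_
    rw [Finset.mem_range] at hi hj
    exact D0_eq u ht i j hi (by omega)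
  have h1 : ∑ i ∈ Finset.range (n + 1), ∑ j ∈ Finset.range n,
      D1 (ext n (u : Fin (n + 1) × Fin (n + 1) → ℂ)) i j ≤ t * ((n + 1 : ℕ) : ℝ) ^ 2 := by
    rw [← sum_full (t := t) (E1 (pin (dis u t))) (sum_E1 _)]
    refine le_trans (le_of_eq ?_) (box_sum (fun q => t * (E1 (pin (dis u t)) q + 1))
      (fun q => mul_nonneg ht.le (by linarith [(hw q).2.1])) (n + 1) n le_rfl (by omega))
    refine Finset.sum_congr rfl fun i hi => Finset.sum_congr rfl fun j hj => ?_
    rw [Finset.mem_range] at hi hj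
    exact D1_eq u ht i j (by omega) hj
  have h2 : ∑ i ∈ Finset.range n, ∑ j ∈ Finset.range n,
      D2 (ext n (u : Fin (n + 1) × Fin (n + 1) → ℂ)) i j ≤ t * ((n + 1 : ℕ) : ℝ) ^ 2 := by
    rw [← sum_full (t := t) (E2 (pin (dis u t))) (sum_E2 _)]
    refine le_trans (le_of_eq ?_) (box_sum (fun q => t * (E2 (pin (dis u t)) q + 1))
      (fun q => mul_nonneg ht.le (by linarith [(hw q).2.2])) n n (by omega) (by omega))
    refine Finset.sum_congr rfl fun i hi => Finset.sum_congr rfl fun j hj => ?_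
    rw [Finset.mem_range] at hi hj
    exact D2_eq u ht i j hi hj
  linarith

include hw in
lemma bd_conf (ht : 0 < t) (ht1 : t ≤ 1) (hu : ‖u 0‖ ≤ 1) (q : ZMod (n + 1) × ZMod (n + 1)) :
    ‖u q‖ ≤ 37 * ((n + 1 : ℕ) : ℝ) ^ 4 := by
  have hM1 : (1 : ℝ) ≤ ((n + 1 : ℕ) : ℝ) := by
    have : 1 ≤ n + 1 := by omega
    exact_mod_cast this
  have h0 := abs_of_sum _ (sum_E0 (pin (dis u t))) (fun q => (hw q).1)
  have h1 := abs_of_sum _ (sum_E1 (pin (dis u t))) (fun q => (hw q).2.1)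
  have h2 := abs_of_sum _ (sum_E2 (pin (dis u t))) (fun q => (hw q).2.2)
  have hp0 : pin (dis u t) 0 = 0 := by
    unfold pin
    rw [dif_pos rfl]
  have h3 := norm_bd (pin (dis u t)) (((n + 1 : ℕ) : ℝ) ^ 2) (by omega) (by positivity) hp0 h0 h1 h2
    q.1.val q.2.val
  have e1 : (((q.1.val : ℕ) : ZMod (n + 1)), ((q.2.val : ℕ) : ZMod (n + 1))) = q := by
    ext <;> simp
  rw [e1] at h3
  have v1 : ((q.1.val : ℕ) : ℝ) ≤ ((n + 1 : ℕ) : ℝ) := by
    have := (ZMod.val_lt q.1).le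
    exact_mod_cast this
  have v2 : ((q.2.val : ℕ) : ℝ) ≤ ((n + 1 : ℕ) : ℝ) := by
    have := (ZMod.val_lt q.2).le
    exact_mod_cast this
  have hrf : ‖(rf q : ℂ)‖ ≤ 2 * ((n + 1 : ℕ) : ℝ) := by
    unfold rf
    refine (norm_add_le _ _).trans ?_
    rw [norm_mul, norm_om, mul_one, Complex.norm_natCast, Complex.norm_natCast]
    linarith
  rw [u_eq u ht q]
  refine (norm_add_le _ _).trans ?_
  rw [norm_mul, Complex.norm_real, Real.norm_of_nonneg ht.le]
  generalize ((n + 1 : ℕ) : ℝ) = M at *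
  have h4 : ‖pin (dis u t) q + rf q‖ ≤ 34 * M ^ 4 + 2 * M := by
    refine (norm_add_le _ _).trans (add_le_add ?_ hrf)
    refine h3.trans ?_
    have h5 : (((q.1.val : ℕ) : ℝ) + ((q.2.val : ℕ) : ℝ)) ≤ 2 * M := by linarith
    have h6 : (0 : ℝ) ≤ 17 * M ^ 2 * M := by positivity
    calc _ ≤ 2 * M * (17 * M ^ 2 * M) := mul_le_mul_of_nonneg_right h5 h6
      _ = 34 * M ^ 4 := by ring
  have h5 : t * ‖pin (dis u t) q + rf q‖ ≤ 1 * (34 * M ^ 4 + 2 * M) :=
    mul_le_mul ht1 h4 (norm_nonneg _) zero_le_one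
  have h6 : M ≤ M ^ 4 := le_self_pow₀ hM1 (by norm_num)
  linarith

end conf

theorem tor : S_tor := by
  refine ⟨37, by norm_num, ?_⟩
  intro M _ t hM ht ht1
  obtain ⟨n, rfl⟩ : ∃ n, M = n + 1 := ⟨M - 1, by omega⟩
  have hvol := vol_split (ZMod (n + 1) × ZMod (n + 1)) 0 t ht (fun q => rf q.1) (PT (n + 1) 1 1 1)
    (measurableSet_PT _ _ _ _)
  rw [card_T] at hvol
  set U' : Set (ZMod (n + 1) × ZMod (n + 1) → ℂ) := {u | ‖u 0‖ ≤ 1 ∧
    (fun q : {q : ZMod (n + 1) × ZMod (n + 1) // q ≠ 0} => (t : ℂ)⁻¹ * (u q.1 - u 0) - rf q.1) ∈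
      PT (n + 1) 1 1 1} with hU'
  have hU'm : MeasurableSet U' := by
    refine MeasurableSet.inter ?_ ?_
    · exact measurableSet_le (f := fun u : ZMod (n + 1) × ZMod (n + 1) → ℂ => ‖u 0‖)
        (by fun_prop) measurable_const
    · have hm : Measurable fun u : ZMod (n + 1) × ZMod (n + 1) → ℂ =>
          (fun q : {q : ZMod (n + 1) × ZMod (n + 1) // q ≠ 0} =>
            (t : ℂ)⁻¹ * (u q.1 - u 0) - rf q.1) := by
        refine measurable_pi_lambda _ fun q => ?_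
        fun_prop
      exact hm (measurableSet_PT _ _ _ _)
  have hsub : U' ⊆ (U n (37 * ((n + 1 : ℕ) : ℝ) ^ 4) :
      Set (ZMod (n + 1) × ZMod (n + 1) → ℂ)) := by
    rintro u ⟨h1, h2⟩
    exact ⟨pos_conf u h2 ht, fun q => bd_conf u h2 ht ht1 h1 q⟩
  have hZ : ENNReal.ofReal (Real.exp (-(3 * t * ((n + 1 : ℕ) : ℝ) ^ 2))) * volume U' ≤
      ∫⁻ u in (U n (37 * ((n + 1 : ℕ) : ℝ) ^ 4) : Set (ZMod (n + 1) × ZMod (n + 1) → ℂ)),
        ENNReal.ofReal (Real.exp (-A n (ext n (u : Fin (n + 1) × Fin (n + 1) → ℂ)))) := by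
    calc _ = ∫⁻ _u in U', ENNReal.ofReal (Real.exp (-(3 * t * ((n + 1 : ℕ) : ℝ) ^ 2))) := by
          rw [setLIntegral_const]
      _ ≤ ∫⁻ u in U', ENNReal.ofReal (Real.exp (-A n (ext n (u : Fin (n + 1) × Fin (n + 1) → ℂ)))) := by
          refine setLIntegral_mono' hU'm fun u hu => ?_
          refine ENNReal.ofReal_le_ofReal (Real.exp_le_exp.2 (neg_le_neg ?_))
          exact A_conf u hu.2 ht
      _ ≤ _ := lintegral_mono_set hsub
  have hfin : ENNReal.ofReal (t ^ (2 * ((n + 1) ^ 2 - 1)) * Real.exp (-(3 * t * ((n + 1 : ℕ) : ℝ) ^ 2))) *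
      vt (n + 1) 1 1 1 ≤ ENNReal.ofReal (Real.exp (-(3 * t * ((n + 1 : ℕ) : ℝ) ^ 2))) * volume U' := by
    rw [ENNReal.ofReal_mul (by positivity), mul_comm (ENNReal.ofReal (t ^ _)), mul_assoc]
    exact mul_le_mul_right hvol _
  exact hfin.trans hZ

end Pool.Agent.H52.CP
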